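import Mathlib
import Pool.Agent.K7.H74.AG.Stm
import Pool.Agent.K7.H74.WS.Sec

set_option autoImplicit false

/-! Project AG, job V2: bounds for one block. -/

namespace Pool.Agent.K7.H50.AG
open Finset MeasureTheory Complex

open Pool.Agent.K7.H74.AF (blk lo e)
open Pool.Agent.K7.H74.AG (SB MB seg StV2)
open Pool.Agent.K7.H74.WS (S M)

/-- the pair sum -/
def Sec : Prop := ∀ (n q P : ℕ), 1 ≤ q → 1 ≤ P → ∀ α : ℝ, α ≠ 0 →
  ∫ a, ‖S (n + 2) P (α * a) 0‖ ^ 2 ∂(seg q) ≤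
    2 * P * q + 4 * (1 + Real.log (2 * P)) / (|α| * (P : ℝ) ^ n)

lemma blk_succ (c : ℕ) : blk (c + 1) = Ico (3 ^ c) (3 * 3 ^ c) := by
  unfold blk lo
  rw [if_neg (Nat.succ_ne_zero c), Nat.add_sub_cancel, pow_succ, mul_comm (3 ^ c) 3]

lemma SB_succ (k c : ℕ) (α : ℝ) : SB k (c + 1) α = S k (3 ^ c) α 0 := by
  unfold SB S
  rw [blk_succ]
  apply sum_congr rfl
  intro x _
  rw [add_zero]
  rfl

lemma MB_succ (k c : ℕ) (α : ℝ) : MB k (c + 1) α = M k (3 ^ c) α := by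
  unfold MB M
  have h1 : ((lo (c + 1) : ℕ) : ℝ) = ((3 ^ c : ℕ) : ℝ) := by
    unfold lo
    rw [if_neg (Nat.succ_ne_zero c), Nat.add_sub_cancel]
  have h2 : (3 : ℝ) ^ (c + 1) = ((3 * 3 ^ c : ℕ) : ℝ) := by
    push_cast
    ring
  rw [h1, h2]
  rfl

lemma SB_zero (k : ℕ) (α : ℝ) : ‖SB k 0 α‖ = 1 := by
  have h1 : blk 0 = {0} := by
    unfold blk lo
    simp
  unfold SB
  rw [h1, sum_singleton]
  exact Pool.Agent.K7.H74.WS.norm_e _

lemma MB_zero (k : ℕ) (α : ℝ) : ‖MB k 0 α‖ ≤ 1 := by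
  unfold MB
  have h1 : ((lo 0 : ℕ) : ℝ) = 0 := by
    unfold lo
    simp
  rw [h1, pow_zero]
  have h := intervalIntegral.norm_integral_le_of_norm_le_const (a := 0) (b := 1) (C := (1 : ℝ))
    (f := fun u => e (α * u ^ k)) (fun u _ => (Pool.Agent.K7.H74.WS.norm_e _).le)
  simpa using h

/-- an integral over the segment -/
lemma int_le {q : ℕ} (hq : 1 ≤ q) {f : ℝ → ℝ} (hf : Continuous f) {K : ℝ} (hK : 0 ≤ K)
    (h : ∀ a, 1 / (q : ℝ) ≤ a → a ≤ q → f a ≤ K) : ∫ a, f a ∂(seg q) ≤ q * K := by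
  have hq0 : (1 : ℝ) ≤ q := by exact_mod_cast hq
  unfold seg
  calc ∫ a in Set.Icc (1 / (q : ℝ)) q, f a ≤ ∫ a in Set.Icc (1 / (q : ℝ)) q, K := by
        apply setIntegral_mono_on (hf.continuousOn.integrableOn_compact isCompact_Icc)
          (continuous_const.continuousOn.integrableOn_compact isCompact_Icc) measurableSet_Icc
        intro a ha
        exact h a ha.1 ha.2
    _ = (q - 1 / q) * K := by
        rw [setIntegral_const, Real.volume_real_Icc, smul_eq_mul, max_eq_left]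
        have : 1 / (q : ℝ) ≤ 1 := by
          rw [div_le_one (by linarith)]
          exact hq0
        linarith
    _ ≤ q * K := by
        apply mul_le_mul_of_nonneg_right _ hK
        have : 0 ≤ 1 / (q : ℝ) := by positivity
        linarith

lemma intble {q : ℕ} {f : ℝ → ℝ} (hf : Continuous f) : Integrable f (seg q) :=
  hf.continuousOn.integrableOn_compact isCompact_Icc

lemma S_c (k P : ℕ) (α : ℝ) : Continuous fun a : ℝ => S k P (α * a) 0 :=
  (Pool.Agent.K7.H74.WS.S_cont k P).comp (by fun_prop : Continuous fun a : ℝ => ((α * a, 0) : ℝ × ℝ))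

lemma M_c (k P : ℕ) (α : ℝ) : Continuous fun a : ℝ => M k P (α * a) :=
  (Pool.Agent.K7.H74.WS.M_cont k P).comp (by fun_prop : Continuous fun a : ℝ => α * a)

lemma log_block {i J : ℕ} (h : i < J) : 1 + Real.log (2 * ((3 ^ i : ℕ) : ℝ)) ≤ 2 * J + 2 := by
  push_cast
  rw [Real.log_mul (by norm_num) (by positivity), Real.log_pow]
  have h1 : Real.log 2 ≤ 1 := by have := Real.log_two_lt_d9; linarith
  have h2 : Real.log 3 ≤ 2 := by
    have := Real.log_le_sub_one_of_pos (by norm_num : (0 : ℝ) < 3)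
    linarith
  have h3 : (i : ℝ) + 1 ≤ J := by exact_mod_cast h
  have h4 : (0 : ℝ) ≤ i := Nat.cast_nonneg _
  have h5 : (i : ℝ) * Real.log 3 ≤ i * 2 := mul_le_mul_of_nonneg_left h2 h4
  linarith

/-- JOB V2 -/
theorem v2 (hsec : Sec) : StV2 := by
  intro k q hk hq
  obtain ⟨n, rfl⟩ : ∃ n, k = n + 2 := ⟨k - 2, by omega⟩
  have hq1 : (1 : ℝ) ≤ q := by exact_mod_cast hq
  have hq0 : (0 : ℝ) < q := by linarith
  have hqq : (q : ℝ) ≤ (q : ℝ) ^ 2 := by nlinarith
  have hqq1 : (1 : ℝ) ≤ (q : ℝ) ^ 2 := by nlinarith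
  have hpi := Real.pi_pos
  set CK : ℝ := 4 * Real.pi * (n + 2) * 3 ^ (n + 1) with hCK
  have hCK0 : 0 ≤ CK := by positivity
  set c : ℝ := CK * q + 1 with hc
  have hc1 : 1 ≤ c := by
    rw [hc]
    have : 0 ≤ CK * q := by positivity
    linarith
  have hc0 : 0 < c := by linarith
  set C : ℝ := 20 * (q : ℝ) ^ 2 * c with hC
  have hCq : 20 * (q : ℝ) ^ 2 ≤ C := by
    rw [hC]
    exact le_mul_of_one_le_right (by positivity) hc1
  have hC20 : 20 ≤ C := by linarith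
  refine ⟨C, by linarith, ?_⟩
  intro b J α hbJ hα
  have hα0 : 0 < |α| := abs_pos.2 hα
  set Z : ℝ := (3 : ℝ) ^ J with hZ
  have hZ1 : 1 ≤ Z := one_le_pow₀ (by norm_num)
  have hZ0 : 0 < Z := by linarith
  have hJ0 : (0 : ℝ) ≤ J := Nat.cast_nonneg J
  have hJ1 : (1 : ℝ) ≤ 1 + J := by linarith
  set X : ℝ := Z ^ (((n + 2 : ℕ) : ℝ) / 2 + 1) * |α| ^ (1 / 2 : ℝ) with hX
  have hX0 : 0 ≤ X := by positivity
  set u : ℝ := |α| ^ (-(1 : ℝ) / ((n + 2 : ℕ) : ℝ)) with hu
  have hu0 : 0 < u := Real.rpow_pos_of_pos hα0 _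
  have hk0 : ((n + 2 : ℕ) : ℝ) ≠ 0 := by positivity
  have hu1 : |α| * u ^ (n + 2) = 1 := by
    rw [hu, ← Real.rpow_natCast, ← Real.rpow_mul hα0.le]
    have : -(1 : ℝ) / ((n + 2 : ℕ) : ℝ) * ((n + 2 : ℕ) : ℝ) = -1 := by
      field_simp
    rw [this, Real.rpow_neg_one, mul_inv_cancel₀ hα0.ne']
  have hu2 : |α| ^ (-(2 : ℝ) / ((n + 2 : ℕ) : ℝ)) = u ^ 2 := by
    rw [hu, ← Real.rpow_natCast, ← Real.rpow_mul hα0.le]
    congr 1
    push_cast
    ring
  rw [hu2]
  have hu20 : 0 ≤ u ^ 2 := by positivity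
  -- the right hand sides
  have hCJ : C ≤ C * (1 + J) := le_mul_of_one_le_right (by linarith) hJ1
  have hR3 : ∀ {v : ℝ}, 0 ≤ v → C * Z ≤ C * (1 + J) * (Z + v) := by
    intro v hv
    calc C * Z ≤ C * (1 + J) * Z := mul_le_mul_of_nonneg_right hCJ hZ0.le
      _ ≤ C * (1 + J) * (Z + v) := mul_le_mul_of_nonneg_left (by linarith) (by positivity)
  rcases Nat.eq_zero_or_pos b with rfl | hb
  · -- the block `{0}`
    have hS : ∀ a : ℝ, ‖SB (n + 2) 0 (α * a)‖ ^ 2 = 1 := fun a => by rw [SB_zero]; norm_num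
    have hM1 : ∀ a : ℝ, ‖MB (n + 2) 0 (α * a)‖ ≤ 1 := fun a => MB_zero _ _
    have hMc : Continuous fun a : ℝ => MB (n + 2) 0 (α * a) := by
      have h1 : Continuous fun β : ℝ => MB (n + 2) 0 β := by
        unfold MB
        apply intervalIntegral.continuous_parametric_intervalIntegral_of_continuous'
        unfold Function.uncurry
        exact Pool.Agent.K7.H74.WS.e_cont.comp (by fun_prop)
      exact h1.comp (by fun_prop)
    have hSc : Continuous fun a : ℝ => SB (n + 2) 0 (α * a) := by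
      unfold SB
      exact continuous_finsetSum _ fun x _ => Pool.Agent.K7.H74.WS.e_cont.comp (by fun_prop)
    have i1 : ∫ a, ‖SB (n + 2) 0 (α * a)‖ ^ 2 ∂(seg q) ≤ q * 1 :=
      int_le (f := fun a => ‖SB (n + 2) 0 (α * a)‖ ^ 2) hq (hSc.norm.pow 2) zero_le_one
        (fun a _ _ => (hS a).le)
    have i2 : ∫ a, ‖MB (n + 2) 0 (α * a)‖ ^ 2 ∂(seg q) ≤ q * 1 :=
      int_le (f := fun a => ‖MB (n + 2) 0 (α * a)‖ ^ 2) hq (hMc.norm.pow 2) zero_le_one (fun a _ _ => by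
        have h1 := hM1 a
        have h2 := norm_nonneg (MB (n + 2) 0 (α * a))
        nlinarith)
    have i3 : ∫ a, ‖SB (n + 2) 0 (α * a) - MB (n + 2) 0 (α * a)‖ ^ 2 ∂(seg q) ≤ q * 4 :=
      int_le (f := fun a => ‖SB (n + 2) 0 (α * a) - MB (n + 2) 0 (α * a)‖ ^ 2) hq
        ((hSc.sub hMc).norm.pow 2) (by norm_num) (fun a _ _ => by
        have h1 := hM1 a
        have h3 : ‖SB (n + 2) 0 (α * a)‖ = 1 := SB_zero _ _
        have h2 := norm_sub_le (SB (n + 2) 0 (α * a)) (MB (n + 2) 0 (α * a))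
        have h4 := norm_nonneg (SB (n + 2) 0 (α * a) - MB (n + 2) 0 (α * a))
        nlinarith)
    have hqC : (q : ℝ) * 4 ≤ C * 1 := by linarith
    have hZZ : C * 1 ≤ C * Z ^ 2 := mul_le_mul_of_nonneg_left (one_le_pow₀ hZ1) (by linarith)
    have hZ' : C * 1 ≤ C * Z := mul_le_mul_of_nonneg_left hZ1 (by linarith)
    refine ⟨by linarith, by linarith, ?_, ?_, ?_⟩
    · have := hR3 hu20
      linarith
    · have := hR3 hu20
      linarith
    · have := hR3 hX0
      linarith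
  obtain ⟨b', rfl⟩ : ∃ b', b = b' + 1 := ⟨b - 1, by omega⟩
  have hbJ' : b' < J := hbJ
  simp only [SB_succ, MB_succ]
  set P : ℕ := 3 ^ b' with hP
  have hP1 : 1 ≤ P := Nat.one_le_pow _ _ (by norm_num)
  have hP0 : (0 : ℝ) < P := by exact_mod_cast hP1
  have hPZ : 3 * (P : ℝ) ≤ Z := by
    rw [hP, hZ]
    push_cast
    calc 3 * (3 : ℝ) ^ b' = 3 ^ (b' + 1) := by ring
      _ ≤ 3 ^ J := pow_le_pow_right₀ (by norm_num) hbJ
  have hlog : 1 + Real.log (2 * (P : ℝ)) ≤ 2 * J + 2 := by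
    rw [hP]
    exact log_block hbJ'
  have hSc := S_c (n + 2) P α
  have hMc := M_c (n + 2) P α
  have hPP : (2 * (P : ℝ)) ^ 2 ≤ Z ^ 2 := pow_le_pow_left₀ (by positivity) (by linarith) 2
  have cS : Continuous fun a : ℝ => ‖S (n + 2) P (α * a) 0‖ ^ 2 := hSc.norm.pow 2
  have cM : Continuous fun a : ℝ => ‖M (n + 2) P (α * a)‖ ^ 2 := hMc.norm.pow 2
  have cD : Continuous fun a : ℝ => ‖S (n + 2) P (α * a) 0 - M (n + 2) P (α * a)‖ ^ 2 :=
    (hSc.sub hMc).norm.pow 2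
  have t1 : ∫ a, ‖S (n + 2) P (α * a) 0‖ ^ 2 ∂(seg q) ≤ (q : ℝ) * (2 * (P : ℝ)) ^ 2 :=
    int_le hq cS (by positivity) (fun a _ _ =>
      pow_le_pow_left₀ (norm_nonneg _) (Pool.Agent.K7.H74.WS.S_le _ _ _ _) 2)
  have t2 : ∫ a, ‖M (n + 2) P (α * a)‖ ^ 2 ∂(seg q) ≤ (q : ℝ) * (2 * (P : ℝ)) ^ 2 :=
    int_le hq cM (by positivity) (fun a _ _ =>
      pow_le_pow_left₀ (norm_nonneg _) (Pool.Agent.K7.H74.WS.M_le' _ _ _) 2)
  -- the common quantity
  set r : ℝ := 1 / (|α| * (P : ℝ) ^ n) with hr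
  have hr0 : 0 < r := by positivity
  have s1 : ∫ a, ‖S (n + 2) P (α * a) 0‖ ^ 2 ∂(seg q) ≤ 2 * P * q + 8 * (1 + J) * r := by
    refine (hsec n q P hq hP1 α hα).trans ?_
    have h1 : 4 * (1 + Real.log (2 * P)) / (|α| * (P : ℝ) ^ n) = 4 * (1 + Real.log (2 * P)) * r := by
      rw [hr]
      ring
    rw [h1]
    have h2 : 4 * (1 + Real.log (2 * P)) * r ≤ 8 * (1 + J) * r :=
      mul_le_mul_of_nonneg_right (by linarith) hr0.le
    linarith
  have s2 : ∫ a, ‖M (n + 2) P (α * a)‖ ^ 2 ∂(seg q) ≤ 2 * (q : ℝ) ^ 2 * r := by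
    have h := int_le hq cM (K := 2 * q * r) (by positivity) (fun a ha1 ha2 => by
      have ha0 : 0 < a := lt_of_lt_of_le (by positivity) ha1
      have g1 := Pool.Agent.K7.H74.WS.M_le (m := n) hP1 (mul_ne_zero hα ha0.ne')
      have g2 := Pool.Agent.K7.H74.WS.M_le' (n + 2) P (α * a)
      have g3 := norm_nonneg (M (n + 2) P (α * a))
      have g4 : 1 / (|α * a| * (P : ℝ) ^ (n + 1)) ≤ q / (|α| * (P : ℝ) ^ (n + 1)) := by
        rw [abs_mul, abs_of_pos ha0, div_le_div_iff₀ (by positivity) (by positivity)]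
        have g5 : 1 ≤ q * a := by
          rw [div_le_iff₀ hq0] at ha1
          linarith
        have g6 : 0 ≤ |α| * (P : ℝ) ^ (n + 1) := by positivity
        nlinarith
      calc ‖M (n + 2) P (α * a)‖ ^ 2 = ‖M (n + 2) P (α * a)‖ * ‖M (n + 2) P (α * a)‖ := sq _
        _ ≤ (2 * P) * (q / (|α| * (P : ℝ) ^ (n + 1))) :=
            mul_le_mul g2 (g1.trans g4) g3 (by positivity)
        _ = 2 * q * r := by
            rw [hr, pow_succ]
            field_simp)
    calc _ ≤ q * (2 * q * r) := h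
      _ = _ := by ring
  -- large blocks
  have hru : u < P → r ≤ u ^ 2 := by
    intro hPu
    rw [hr, div_le_iff₀ (by positivity)]
    calc (1 : ℝ) = |α| * u ^ (n + 2) := hu1.symm
      _ = u ^ 2 * (|α| * u ^ n) := by ring
      _ ≤ u ^ 2 * (|α| * (P : ℝ) ^ n) := by gcongr
  have hCu : C * u ^ 2 ≤ C * (1 + J) * (Z + u ^ 2) := by
    calc C * u ^ 2 ≤ C * (1 + J) * u ^ 2 := mul_le_mul_of_nonneg_right hCJ hu20
      _ ≤ C * (1 + J) * (Z + u ^ 2) := mul_le_mul_of_nonneg_left (by linarith) (by positivity)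
  refine ⟨?_, ?_, ?_, ?_, ?_⟩
  · calc _ ≤ (q : ℝ) * (2 * (P : ℝ)) ^ 2 := t1
      _ ≤ C * Z ^ 2 := mul_le_mul (by linarith) hPP (by positivity) (by linarith)
  · calc _ ≤ (q : ℝ) * (2 * (P : ℝ)) ^ 2 := t2
      _ ≤ C * Z ^ 2 := mul_le_mul (by linarith) hPP (by positivity) (by linarith)
  · rcases le_or_gt (P : ℝ) u with hPu | hPu
    · have h1 : q * (2 * (P : ℝ)) ^ 2 ≤ C * u ^ 2 := by
        have h2 : (P : ℝ) ^ 2 ≤ u ^ 2 := pow_le_pow_left₀ hP0.le hPu 2
        calc q * (2 * (P : ℝ)) ^ 2 = (4 * q) * (P : ℝ) ^ 2 := by ring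
          _ ≤ C * u ^ 2 := mul_le_mul (by linarith) h2 (by positivity) (by linarith)
      linarith
    · have h1 : 8 * (1 + (J : ℝ)) * r ≤ C * (1 + J) * u ^ 2 := by
        calc 8 * (1 + (J : ℝ)) * r ≤ C * (1 + J) * r := by gcongr; linarith
          _ ≤ C * (1 + J) * u ^ 2 := mul_le_mul_of_nonneg_left (hru hPu) (by positivity)
      have h2 : 2 * (P : ℝ) * q ≤ C * (1 + J) * Z := by
        calc 2 * (P : ℝ) * q = q * (2 * P) := by ring
          _ ≤ C * Z := mul_le_mul (by linarith) (by linarith) (by positivity) (by linarith)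
          _ ≤ C * (1 + J) * Z := mul_le_mul_of_nonneg_right hCJ hZ0.le
      calc _ ≤ _ := s1
        _ ≤ C * (1 + J) * Z + C * (1 + J) * u ^ 2 := by linarith
        _ = _ := by ring
  · rcases le_or_gt (P : ℝ) u with hPu | hPu
    · have h1 : q * (2 * (P : ℝ)) ^ 2 ≤ C * u ^ 2 := by
        have h2 : (P : ℝ) ^ 2 ≤ u ^ 2 := pow_le_pow_left₀ hP0.le hPu 2
        calc q * (2 * (P : ℝ)) ^ 2 = (4 * q) * (P : ℝ) ^ 2 := by ring
          _ ≤ C * u ^ 2 := mul_le_mul (by linarith) h2 (by positivity) (by linarith)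
      linarith
    · have h1 : 2 * (q : ℝ) ^ 2 * r ≤ C * u ^ 2 :=
        mul_le_mul (by linarith) (hru hPu) hr0.le (by linarith)
      linarith
  · set t : ℝ := |α| * (P : ℝ) ^ (n + 2) with ht
    have ht0 : 0 < t := by positivity
    set s : ℝ := Real.sqrt t with hs
    have hs0 : 0 < s := Real.sqrt_pos.2 ht0
    have hst : s ^ 2 = t := Real.sq_sqrt ht0.le
    have hPs : P * s ≤ X := by
      have h1 : s ≤ Real.sqrt (|α| * Z ^ (n + 2)) := by
        apply Real.sqrt_le_sqrt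
        rw [ht]
        have : (P : ℝ) ^ (n + 2) ≤ Z ^ (n + 2) := pow_le_pow_left₀ hP0.le (by linarith) _
        exact mul_le_mul_of_nonneg_left this hα0.le
      have h2 : Real.sqrt (|α| * Z ^ (n + 2)) = |α| ^ (1 / 2 : ℝ) * Z ^ (((n + 2 : ℕ) : ℝ) / 2) := by
        rw [Real.sqrt_eq_rpow, Real.mul_rpow hα0.le (by positivity), ← Real.rpow_natCast Z (n + 2),
          ← Real.rpow_mul hZ0.le]
        congr 2
        ring
      have h3 : X = Z * (|α| ^ (1 / 2 : ℝ) * Z ^ (((n + 2 : ℕ) : ℝ) / 2)) := by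
        rw [hX, Real.rpow_add hZ0, Real.rpow_one]
        ring
      rw [h3, ← h2]
      exact mul_le_mul (by linarith) h1 hs0.le hZ0.le
    have hPs0 : 0 ≤ P * s := by positivity
    have hmain : ∫ a, ‖S (n + 2) P (α * a) 0 - M (n + 2) P (α * a)‖ ^ 2 ∂(seg q) ≤
        4 * P * q + 20 * (q : ℝ) ^ 2 * c * (1 + J) * (P * s) := by
      rcases le_or_gt (P : ℝ) (c * s ^ 3) with h | h
      · have h1 : ∫ a, ‖S (n + 2) P (α * a) 0 - M (n + 2) P (α * a)‖ ^ 2 ∂(seg q) ≤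
            2 * (∫ a, ‖S (n + 2) P (α * a) 0‖ ^ 2 ∂(seg q)) +
              2 * ∫ a, ‖M (n + 2) P (α * a)‖ ^ 2 ∂(seg q) := by
          rw [← integral_const_mul, ← integral_const_mul, ← integral_add
            ((intble cS).const_mul 2) ((intble cM).const_mul 2)]
          apply integral_mono (intble cD) (((intble cS).const_mul 2).add ((intble cM).const_mul 2))
          intro a
          have h2 := norm_sub_le (S (n + 2) P (α * a) 0) (M (n + 2) P (α * a))
          have h3 := norm_nonneg (S (n + 2) P (α * a) 0 - M (n + 2) P (α * a))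
          have h4 : ‖S (n + 2) P (α * a) 0 - M (n + 2) P (α * a)‖ ^ 2 ≤
              (‖S (n + 2) P (α * a) 0‖ + ‖M (n + 2) P (α * a)‖) ^ 2 := pow_le_pow_left₀ h3 h2 2
          have h5 := sq_nonneg (‖S (n + 2) P (α * a) 0‖ - ‖M (n + 2) P (α * a)‖)
          have h6 : (‖S (n + 2) P (α * a) 0‖ + ‖M (n + 2) P (α * a)‖) ^ 2 =
              2 * ‖S (n + 2) P (α * a) 0‖ ^ 2 + 2 * ‖M (n + 2) P (α * a)‖ ^ 2 -
                (‖S (n + 2) P (α * a) 0‖ - ‖M (n + 2) P (α * a)‖) ^ 2 := by ring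
          change ‖S (n + 2) P (α * a) 0 - M (n + 2) P (α * a)‖ ^ 2 ≤
            2 * ‖S (n + 2) P (α * a) 0‖ ^ 2 + 2 * ‖M (n + 2) P (α * a)‖ ^ 2
          linarith
        have h2 : r ≤ c * (P * s) := by
          have h2 : (P : ℝ) ^ 2 * (|α| * (P : ℝ) ^ n) = s ^ 2 := by
            rw [hst, ht]
            ring
          rw [hr, div_le_iff₀ (by positivity)]
          have h4 : (P : ℝ) ^ 2 * 1 ≤ (P : ℝ) ^ 2 * (c * (P * s) * (|α| * (P : ℝ) ^ n)) := by
            calc (P : ℝ) ^ 2 * 1 = P * P := by ring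
              _ ≤ P * (c * s ^ 3) := mul_le_mul_of_nonneg_left h hP0.le
              _ = c * (P * s) * s ^ 2 := by ring
              _ = c * (P * s) * ((P : ℝ) ^ 2 * (|α| * (P : ℝ) ^ n)) := by rw [h2]
              _ = _ := by ring
          exact le_of_mul_le_mul_left h4 (by positivity)
        have h3 : 16 * (1 + (J : ℝ)) + 4 * (q : ℝ) ^ 2 ≤ 20 * (q : ℝ) ^ 2 * (1 + J) := by
          nlinarith [mul_nonneg (by linarith : (0 : ℝ) ≤ (q : ℝ) ^ 2 - 1) hJ0]
        calc _ ≤ _ := h1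
          _ ≤ 2 * (2 * P * q + 8 * (1 + J) * r) + 2 * (2 * (q : ℝ) ^ 2 * r) := by linarith
          _ = 4 * P * q + (16 * (1 + J) + 4 * (q : ℝ) ^ 2) * r := by ring
          _ ≤ 4 * P * q + (20 * (q : ℝ) ^ 2 * (1 + J)) * (c * (P * s)) := by
              have h4 : (16 * (1 + (J : ℝ)) + 4 * (q : ℝ) ^ 2) * r ≤
                  (20 * (q : ℝ) ^ 2 * (1 + J)) * (c * (P * s)) :=
                mul_le_mul h3 h2 hr0.le (by positivity)
              linarith
          _ = _ := by ring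
      · have h1 : ∫ a, ‖S (n + 2) P (α * a) 0 - M (n + 2) P (α * a)‖ ^ 2 ∂(seg q) ≤
            q * (c * t) ^ 2 := by
          apply int_le hq cD (by positivity)
          intro a ha1 ha2
          have ha0 : 0 < a := lt_of_lt_of_le (by positivity) ha1
          apply pow_le_pow_left₀ (norm_nonneg _)
          have g1 := Pool.Agent.K7.H74.WS.dev (m := n) hP1 (α * a) (le_refl (0 : ℝ)) zero_le_one
          refine g1.trans ?_
          rw [abs_mul, abs_of_pos ha0]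
          calc CK * (|α| * a * (P : ℝ) ^ (n + 2)) = CK * a * t := by
                rw [ht]
                ring
            _ ≤ c * t := by
                apply mul_le_mul_of_nonneg_right _ ht0.le
                rw [hc]
                have : CK * a ≤ CK * q := mul_le_mul_of_nonneg_left ha2 hCK0
                linarith
        have h2 : (c * t) ^ 2 ≤ c * (P * s) := by
          calc (c * t) ^ 2 = c * s * (c * s ^ 3) := by rw [← hst]; ring
            _ ≤ c * s * P := mul_le_mul_of_nonneg_left h.le (by positivity)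
            _ = _ := by ring
        have h3 : (q : ℝ) * (c * t) ^ 2 ≤ 20 * (q : ℝ) ^ 2 * c * (1 + J) * (P * s) := by
          calc (q : ℝ) * (c * t) ^ 2 ≤ q * (c * (P * s)) := mul_le_mul_of_nonneg_left h2 hq0.le
            _ = q * 1 * (c * (P * s)) := by ring
            _ ≤ (20 * (q : ℝ) ^ 2) * (1 + J) * (c * (P * s)) := by
                apply mul_le_mul_of_nonneg_right _ (by positivity)
                exact mul_le_mul (by linarith) hJ1 zero_le_one (by positivity)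
            _ = _ := by ring
        have h4 : 0 ≤ 4 * (P : ℝ) * q := by positivity
        linarith
    have h5 : 4 * (P : ℝ) * q ≤ C * (1 + J) * Z := by
      calc 4 * (P : ℝ) * q = (2 * q) * (2 * P) := by ring
        _ ≤ C * Z := mul_le_mul (by linarith) (by linarith) (by positivity) (by linarith)
        _ ≤ C * (1 + J) * Z := mul_le_mul_of_nonneg_right hCJ hZ0.le
    have h6 : 20 * (q : ℝ) ^ 2 * c * (1 + J) * (P * s) ≤ C * (1 + J) * X := by
      rw [hC]
      exact mul_le_mul_of_nonneg_left hPs (by positivity)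
    calc _ ≤ _ := hmain
      _ ≤ C * (1 + J) * Z + C * (1 + J) * X := by linarith
      _ = _ := by ring

end Pool.Agent.K7.H50.AG
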