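import Pool.Agent.K7.H50.AG.V2
import Pool.Agent.K7.H63.AG.V2A

set_option autoImplicit false

/-! Project AG, job V2 complete (the pair sum is by helper63). -/

namespace Pool.Agent.K7.H50.AG

/-- JOB V2 -/
theorem stV2 : Pool.Agent.K7.H74.AG.StV2 :=
  v2 fun n q P hq hP α hα => Pool.Agent.K7.H63.AG.sec n q P hq hP α hα

end Pool.Agent.K7.H50.AG
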